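import Pool.Agent.Q29.TV.Main

/-!
# The degree of twisted commutativity of a virtually abelian group and its finite quotients

The definitions (balls, `tdc φ X`, `tdcFinite ψ`, `infQuotients φ`, `IsVirtuallyAbelian`) are in
`Pool.Agent.Q29.TV.Defs`.
-/

namespace Pool.Agent.Results.MP_13fe47_al.InfimumFormula

open Q29.TV

universe u

/-- For every finitely generated virtually abelian group `G`, every finite generating set `X`
and every endomorphism `φ`, the degree of twisted commutativity of `G` with respect to `X` and
`φ` is the infimum of those of the finite quotients `G/N` with `φ(N) ≤ N`. -/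
theorem result (G : Type u) [Group G] (hG : IsVirtuallyAbelian G) (X : Set G) (hX : X.Finite)
    (hgen : Subgroup.closure X = ⊤) (φ : G →* G) : tdc φ X = infQuotients φ :=
  main hG hX hgen φ

end Pool.Agent.Results.MP_13fe47_al.InfimumFormula
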